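import Pool.Agent.Y82.GL.Gen
import Pool.Agent.Y82.GL.Land

/-! Landau's lemma, uniformly, for nonnegative integral combinations of `L`-functions with ramified places some of
whose local roots are removed. -/

set_option autoImplicit false

namespace Pool.Agent.Y82.WT

open NumberField IsDedekindDomain
open Pool.Agent.W189.TP (DS norm_term)
open Pool.Agent.TH861.GL3 (PL qq two_le_qq qq_pos one_lt_qq)
open Pool.Agent.TH949.LT
open Pool.Agent.TH949.UL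
open Pool.Agent.Y725.UG (ldata_mul pk_append ldata_one)
open Pool.Agent.Y82.GL

universe u

/-- an `L`-function with the logarithm `∑ u x (N x)^{-s}` after the removal of some local factors, with the analytic
conductor at most `R` -/
structure GoodT {K : Type u} [Field K] [NumberField K] (m N : ℕ) (B R : ℝ) (u : PV K → ℝ) (Z : Prop) : Prop where
  bd : ∀ x, |u x| ≤ B * Real.exp (LV x)
  ex : ∃ (κ : Fin N → ℂ) (Q : ℝ) (G : ℂ → ℂ) (T : Finset (HeightOneSpectrum (𝓞 K) × Fin m))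
    (γ : HeightOneSpectrum (𝓞 K) × Fin m → ℂ), (∀ x ∈ T, ‖γ x‖ = 1) ∧ LData N κ Q G ∧
    (∀ s : ℂ, 5 / 2 ≤ s.re → G s * ∏ x ∈ T, (1 - γ x * ((qq x.1 : ℕ) : ℂ) ^ (-s)) = Complex.exp (DS u LV s)) ∧
    Q ^ 2 * PK κ * ∏ x ∈ T, (qq x.1 : ℝ) ≤ R ∧ (Z → ∃ j, κ j = 0)

section

variable {K : Type u} [Field K] [NumberField K] {m m' N N' : ℕ} {B B' R R' : ℝ} {u u' : PV K → ℝ} {Z Z' : Prop}

theorem prod_qq_nonneg (T : Finset (HeightOneSpectrum (𝓞 K) × Fin m)) : 0 ≤ ∏ x ∈ T, (qq x.1 : ℝ) :=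
  Finset.prod_nonneg fun _ _ => Nat.cast_nonneg _

theorem GoodT.mul (h : GoodT (K := K) m N B R u Z) (h' : GoodT (K := K) m' N' B' R' u' Z') :
    GoodT (K := K) (m + m') (N + N') (B + B') (R * R') (fun x => u x + u' x) (Z ∨ Z') := by
  classical
  obtain ⟨κ, Q, G, T, γ, hγ, hL, hG, hR, hZ⟩ := h.ex
  obtain ⟨κ', Q', G', T', γ', hγ', hL', hG', hR', hZ'⟩ := h'.ex
  obtain ⟨e1, he1⟩ : ∃ e : HeightOneSpectrum (𝓞 K) × Fin m ↪ HeightOneSpectrum (𝓞 K) × Fin (m + m'),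
      ∀ x, e x = (x.1, Fin.castAdd m' x.2) := ⟨⟨fun x => (x.1, Fin.castAdd m' x.2), fun x y hxy => by
        simp only [Prod.mk.injEq] at hxy
        exact Prod.ext hxy.1 (Fin.castAdd_injective m m' hxy.2)⟩, fun _ => rfl⟩
  obtain ⟨e2, he2⟩ : ∃ e : HeightOneSpectrum (𝓞 K) × Fin m' ↪ HeightOneSpectrum (𝓞 K) × Fin (m + m'),
      ∀ x, e x = (x.1, Fin.natAdd m x.2) := ⟨⟨fun x => (x.1, Fin.natAdd m x.2), fun x y hxy => by
        simp only [Prod.mk.injEq] at hxy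
        exact Prod.ext hxy.1 (Fin.natAdd_injective m' m hxy.2)⟩, fun _ => rfl⟩
  obtain ⟨g, hg⟩ : ∃ g : HeightOneSpectrum (𝓞 K) × Fin (m + m') → ℂ,
      g = fun x => Fin.addCases (fun i => γ (x.1, i)) (fun i => γ' (x.1, i)) x.2 := ⟨_, rfl⟩
  have g1 : ∀ x, g (e1 x) = γ x := fun x => by rw [hg, he1]; simp
  have g2 : ∀ x, g (e2 x) = γ' x := fun x => by rw [hg, he2]; simp
  have q1 : ∀ x, (e1 x).1 = x.1 := fun x => by rw [he1]
  have q2 : ∀ x, (e2 x).1 = x.1 := fun x => by rw [he2]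
  have hdis : Disjoint (T.map e1) (T'.map e2) := by
    rw [Finset.disjoint_left]
    intro x hx hx'
    rw [Finset.mem_map] at hx hx'
    obtain ⟨a, _, rfl⟩ := hx
    obtain ⟨b, _, hb⟩ := hx'
    rw [he1, he2] at hb
    have h1 := congrArg Prod.snd hb
    have h2 := congrArg Fin.val h1
    simp only [Fin.val_natAdd, Fin.val_castAdd] at h2
    have h3 := a.2.2
    omega
  have hprod : ∀ (M : Type) [CommMonoid M] (f : HeightOneSpectrum (𝓞 K) × Fin (m + m') → M),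
      ∏ x ∈ (T.map e1) ∪ (T'.map e2), f x = (∏ x ∈ T, f (e1 x)) * ∏ x ∈ T', f (e2 x) := by
    intro M _ f
    rw [Finset.prod_union hdis, Finset.prod_map, Finset.prod_map]
  refine ⟨fun x => ?_, Fin.append κ κ', Q * Q', fun s => G s * G' s, (T.map e1) ∪ (T'.map e2), g, ?_,
    ldata_mul hL hL', fun s hs => ?_, ?_, ?_⟩
  · rw [add_mul]
    exact (abs_add_le _ _).trans (add_le_add (h.bd x) (h'.bd x))
  · intro x hx
    rw [Finset.mem_union, Finset.mem_map, Finset.mem_map] at hx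
    rcases hx with ⟨a, ha, rfl⟩ | ⟨a, ha, rfl⟩
    · rw [g1]; exact hγ a ha
    · rw [g2]; exact hγ' a ha
  · rw [hprod ℂ]
    simp only [g1, g2, q1, q2]
    have h1 : (G s * G' s) * ((∏ x ∈ T, (1 - γ x * ((qq x.1 : ℕ) : ℂ) ^ (-s))) *
        ∏ x ∈ T', (1 - γ' x * ((qq x.1 : ℕ) : ℂ) ^ (-s))) =
        (G s * ∏ x ∈ T, (1 - γ x * ((qq x.1 : ℕ) : ℂ) ^ (-s))) *
        (G' s * ∏ x ∈ T', (1 - γ' x * ((qq x.1 : ℕ) : ℂ) ^ (-s))) := by ring
    rw [h1, hG s hs, hG' s hs, ← Complex.exp_add]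
    congr 1
    unfold DS
    rw [← (summ h.bd hs).tsum_add (summ h'.bd hs)]
    refine tsum_congr fun x => ?_
    push_cast
    ring
  · rw [hprod ℝ]
    simp only [q1, q2]
    rw [pk_append]
    have a1 := prod_qq_nonneg T
    have a2 := prod_qq_nonneg T'
    have a3 := one_le_PK κ
    have a4 := one_le_PK κ'
    calc (Q * Q') ^ 2 * (PK κ * PK κ') * ((∏ x ∈ T, (qq x.1 : ℝ)) * ∏ x ∈ T', (qq x.1 : ℝ)) =
        (Q ^ 2 * PK κ * ∏ x ∈ T, (qq x.1 : ℝ)) * (Q' ^ 2 * PK κ' * ∏ x ∈ T', (qq x.1 : ℝ)) := by ring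
      _ ≤ R * R' := mul_le_mul hR hR' (by positivity) (le_trans (by positivity) hR)
  · rintro (hz | hz)
    · obtain ⟨j, hj⟩ := hZ hz
      exact ⟨Fin.castAdd _ j, by rw [Fin.append_left]; exact hj⟩
    · obtain ⟨j, hj⟩ := hZ' hz
      exact ⟨Fin.natAdd _ j, by rw [Fin.append_right]; exact hj⟩

theorem goodT_one : GoodT (K := K) 0 0 0 1 (fun _ => 0) False := by
  refine ⟨fun x => by simp, fun i => i.elim0, 1, fun _ => 1, ∅, fun _ => 1, by simp, ldata_one, fun s _ => ?_, ?_,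
    fun h => h.elim⟩
  · simp [DS]
  · simp [PK]

theorem GoodT.imp (h : GoodT (K := K) m N B R u Z) (hz : Z' → Z) : GoodT (K := K) m N B R u Z' := by
  obtain ⟨κ, Q, G, T, γ, hγ, hL, hG, hR, hZ⟩ := h.ex
  exact ⟨h.bd, κ, Q, G, T, γ, hγ, hL, hG, hR, fun z => hZ (hz z)⟩

theorem GoodT.congr (h : GoodT (K := K) m N B R u Z) (hu : ∀ x, u x = u' x) : GoodT (K := K) m N B R u' Z := by
  have : u = u' := funext hu
  rw [← this]
  exact h

/-- products of several functions -/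
theorem GoodT.prod : ∀ (r : ℕ) (R : Fin r → ℝ) (u : Fin r → PV K → ℝ),
    (∀ i, GoodT (K := K) m N B (R i) (u i) Z) →
    GoodT (K := K) (r * m) (r * N) (r * B) (∏ i, R i) (fun x => ∑ i, u i x) (r ≠ 0 ∧ Z) := by
  intro r
  induction r with
  | zero =>
    intro R u _
    have h := goodT_one (K := K)
    rw [Nat.zero_mul, Nat.zero_mul]
    obtain ⟨h1, κ, Q, G, T, γ, hγ, h2, h3, h4, _⟩ := h
    refine ⟨fun x => ?_, κ, Q, G, T, γ, hγ, h2, fun s hs => ?_, ?_, fun h => absurd rfl h.1⟩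
    · simpa using h1 x
    · simpa using h3 s hs
    · simpa using h4
  | succ r ih =>
    intro R u h
    have h1 := (ih (fun i => R i.castSucc) (fun i => u i.castSucc) fun i => h _).mul (h (Fin.last r))
    have e1 : ((r + 1 : ℕ) : ℝ) * B = r * B + B := by push_cast; ring
    have e2 : (fun x => ∑ i : Fin (r + 1), u i x) = fun x => ∑ i : Fin r, u i.castSucc x + u (Fin.last r) x := by
      funext x
      rw [Fin.sum_univ_castSucc]
    rw [Nat.succ_mul, Nat.succ_mul, e1, e2, Fin.prod_univ_castSucc]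
    exact h1.imp fun hz => Or.inr hz.2

theorem GoodT.pow (h : GoodT (K := K) m N B R u Z) (k : ℕ) :
    GoodT (K := K) (k * m) (k * N) (k * B) (R ^ k) (fun x => k * u x) (k ≠ 0 ∧ Z) := by
  have h1 := GoodT.prod k (fun _ => R) (fun _ => u) fun _ => h
  rw [Finset.prod_const, Finset.card_univ, Fintype.card_fin] at h1
  refine h1.congr fun x => ?_
  rw [Finset.sum_const, Finset.card_univ, Fintype.card_fin, nsmul_eq_mul]

end

/-- the uniform Landau lemma -/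
theorem landT (K : Type u) [Field K] [NumberField K] (m N : ℕ) {B ε : ℝ} (hB : 0 ≤ B) (hε : 0 < ε) :
    ∃ A : ℝ, 0 < A ∧ ∀ (R : ℝ) (u : PV K → ℝ), GoodT m N B R u True →
      ∃ x, u x < 0 ∧ (qq x.1 : ℝ) ^ (x.2 + 1) ≤ A * R ^ (1 + ε) := by
  obtain ⟨A, hA0, hA⟩ := euler.{u} K N m den_one hB hε
  refine ⟨A, hA0, fun R u h => ?_⟩
  obtain ⟨κ, Q, G, T, γ, hγ, hL, hG, hR, hZ⟩ := h.ex
  obtain ⟨x, hx, hx2⟩ := hA u κ Q G T γ hγ hL (hZ trivial) h.bd (fun s hs => by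
    rw [one_mul]
    exact hG s hs)
  refine ⟨x, hx, hx2.trans ?_⟩
  have a1 := prod_qq_nonneg T
  have a3 := one_le_PK κ
  exact mul_le_mul_of_nonneg_left (Real.rpow_le_rpow (by positivity) hR (by positivity)) hA0.le

open scoped Classical in
/-- From the usual data: the local roots `β v i` at the places of `S` are of absolute value `1` or nonnegative. -/
theorem goodT_of {K : Type u} [Field K] [NumberField K] {S : Finset (HeightOneSpectrum (𝓞 K))} {m N : ℕ}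
    {e : PL S → ℕ → ℝ} {β : HeightOneSpectrum (𝓞 K) → Fin m → ℂ} {κ : Fin N → ℂ} {Q B R : ℝ} {G : ℂ → ℂ}
    (hB : 0 ≤ B) (he : ∀ v k, |e v k| ≤ B * (qq v.1 : ℝ) ^ k) (hβ : ∀ v ∈ S, ∀ i, ‖β v i‖ < (qq v : ℝ))
    (hr : ∀ v ∈ S, ∀ i, ‖β v i‖ = 1 ∨ ∃ c : ℝ, 0 ≤ c ∧ β v i = c) (hL : LData N κ Q G)
    (hR : Q ^ 2 * PK κ * ∏ v ∈ S, ∏ i, (if ‖β v i‖ = 1 then (qq v : ℝ) else 1) ≤ R)
    (hE : ∀ s : ℂ, 5 / 2 ≤ s.re → G s * ∏ v ∈ S, ∏ i, (1 - β v i * ((qq v : ℕ) : ℂ) ^ (-s)) =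
        Complex.exp (logE e s)) :
    ∃ u : PV K → ℝ, GoodT m N (B + m) R u (∃ j, κ j = 0) ∧ (∀ v ∈ S, ∀ k, 0 ≤ u (v, k)) ∧
      ∀ (v : PL S) (k : ℕ), u (v.1, k) = e v (k + 1) / ((k : ℝ) + 1) := by
  obtain ⟨T, hT⟩ : ∃ T : Finset (HeightOneSpectrum (𝓞 K) × Fin m),
      T = (S ×ˢ Finset.univ).filter (fun x => ‖β x.1 x.2‖ = 1) := ⟨_, rfl⟩
  have hTm : ∀ x, x ∈ T ↔ x.1 ∈ S ∧ ‖β x.1 x.2‖ = 1 := by
    intro x
    rw [hT, Finset.mem_filter, Finset.mem_product]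
    simp
  obtain ⟨β', hβ'⟩ : ∃ β' : HeightOneSpectrum (𝓞 K) → Fin m → ℂ,
      β' = fun v i => if ‖β v i‖ = 1 then 0 else β v i := ⟨_, rfl⟩
  have hb1 : ∀ v ∈ S, ∀ i, ‖β' v i‖ < (qq v : ℝ) := by
    intro v hv i
    rw [hβ']
    simp only
    split_ifs
    · rw [norm_zero]
      exact qq_pos v
    · exact hβ v hv i
  have hb3 : ∀ v ∈ S, ∀ i, ∃ c : ℝ, 0 ≤ c ∧ β' v i = c := by
    intro v hv i
    rw [hβ']
    simp only
    split_ifs with h
    · exact ⟨0, le_rfl, by simp⟩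
    · exact (hr v hv i).resolve_left h
  have hb2 : ∀ v ∈ S, ∀ k : ℕ, ∃ c : ℝ, 0 ≤ c ∧ ∑ i, β' v i ^ (k + 1) = (c : ℂ) := by
    intro v hv k
    choose c hc1 hc2 using hb3 v hv
    refine ⟨∑ i, c i ^ (k + 1), Finset.sum_nonneg fun i _ => pow_nonneg (hc1 i) _, ?_⟩
    push_cast
    exact Finset.sum_congr rfl fun i _ => by rw [hc2]
  refine ⟨eall e β', ⟨eall_le hB he hb1, κ, Q, G, T, fun x => β x.1 x.2, fun x hx => ((hTm x).1 hx).2, hL,
    fun s hs => ?_, ?_, fun h => h⟩, ?_, ?_⟩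
  · have h1 := hE s hs
    have h2 := exp_eall hB he hb1 (fun v hv k => by
      obtain ⟨c, _, hc⟩ := hb2 v hv k
      exact ⟨c, hc⟩) hs
    have h3 : ∏ v ∈ S, ∏ i, (1 - β v i * ((qq v : ℕ) : ℂ) ^ (-s)) =
        (∏ v ∈ S, ∏ i, (1 - β' v i * ((qq v : ℕ) : ℂ) ^ (-s))) *
          ∏ x ∈ T, (1 - β x.1 x.2 * ((qq x.1 : ℕ) : ℂ) ^ (-s)) := by
      rw [← Finset.prod_product' S Finset.univ (fun v i => 1 - β v i * ((qq v : ℕ) : ℂ) ^ (-s)),
        ← Finset.prod_product' S Finset.univ (fun v i => 1 - β' v i * ((qq v : ℕ) : ℂ) ^ (-s)), hT,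
        Finset.prod_filter, ← Finset.prod_mul_distrib]
      refine Finset.prod_congr rfl fun x _ => ?_
      rw [hβ']
      simp only
      split_ifs <;> simp
    have hne : ∏ v ∈ S, ∏ i, (1 - β' v i * ((qq v : ℕ) : ℂ) ^ (-s)) ≠ 0 := by
      intro h0
      rw [h0, mul_zero] at h2
      exact Complex.exp_ne_zero _ h2.symm
    rw [h3, ← h2] at h1
    have h5 : (G s * ∏ x ∈ T, (1 - β x.1 x.2 * ((qq x.1 : ℕ) : ℂ) ^ (-s))) *
        (∏ v ∈ S, ∏ i, (1 - β' v i * ((qq v : ℕ) : ℂ) ^ (-s))) =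
        Complex.exp (DS (eall e β') LV s) *
        (∏ v ∈ S, ∏ i, (1 - β' v i * ((qq v : ℕ) : ℂ) ^ (-s))) := by
      linear_combination h1
    exact mul_right_cancel₀ hne h5
  · refine le_trans (le_of_eq ?_) hR
    congr 1
    rw [hT, Finset.prod_filter, ← Finset.prod_product' S Finset.univ
      (fun v i => if ‖β v i‖ = 1 then (qq v : ℝ) else 1)]
  · intro v hv k
    rw [eall_S hv]
    obtain ⟨c, hc, hc2⟩ := hb2 v hv k
    rw [hc2, Complex.ofReal_re]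
    positivity
  · intro v k
    exact eall_P v.2 k

end Pool.Agent.Y82.WT
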